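import Pool.Agent.H26.ZQ.Defs

/-!
# A lemma of Fatou for functions whose negative parts are bounded in `L^2`
-/

set_option autoImplicit false

open MeasureTheory Set Filter Topology Metric

namespace Pool.Agent.H86.ZQ

open Pool.Agent.H26.ZQ Pool.Agent.H26.ML

theorem pf_flo : T_FLO := by
  intro α _ μ _ g g₀ B V hg hg₀ hlim hsq hV
  have hM0 : 0 ≤ max B 0 := le_max_right _ _
  have key : ∀ K : ℝ, 0 < K → ∫ x, g₀ x ∂μ ≤ V + max B 0 / K := by
    intro K hK
    have hint : ∀ f : α → ℝ, Integrable f μ → Integrable (fun x => max (f x) (-K) + K) μ := by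
      intro f hf
      exact (hf.sup (integrable_const (-K))).add (integrable_const K)
    have hnn : ∀ (f : α → ℝ) (x : α), 0 ≤ max (f x) (-K) + K := by
      intro f x
      have := le_max_right (f x) (-K)
      linarith
    -- the bound for large n
    have hb : ∀ᶠ n in atTop, ∫ x, (max (g n x) (-K) + K) ∂μ ≤
        V + max B 0 / K + K * μ.real univ := by
      filter_upwards [hsq, hV] with n h1 h2
      have hmeas : AEStronglyMeasurable (fun x => (max (-g n x) 0) ^ 2) μ :=
        (((hg n).neg.sup (integrable_const (0 : ℝ))).aestronglyMeasurable).pow 2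
      have hsqi : Integrable (fun x => (max (-g n x) 0) ^ 2) μ := by
        refine ⟨hmeas, ?_⟩
        rw [hasFiniteIntegral_iff_ofReal (ae_of_all _ fun x => sq_nonneg _)]
        exact h1.trans_lt ENNReal.ofReal_lt_top
      have hsqb : ∫ x, (max (-g n x) 0) ^ 2 ∂μ ≤ max B 0 := by
        rw [integral_eq_lintegral_of_nonneg_ae (ae_of_all _ fun x => sq_nonneg _) hmeas]
        refine ENNReal.toReal_le_of_le_ofReal hM0 (h1.trans ?_)
        exact ENNReal.ofReal_le_ofReal (le_max_left _ _)
      have hpt : ∀ x, max (g n x) (-K) + K ≤ g n x + (max (-g n x) 0) ^ 2 / K + K := by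
        intro x
        have h3 : 0 ≤ (max (-g n x) 0) ^ 2 / K := by positivity
        rcases le_total (-K) (g n x) with h | h
        · rw [max_eq_left h]; linarith
        · rw [max_eq_right h]
          have h4 : K ≤ -g n x := by linarith
          have h5 : max (-g n x) 0 = -g n x := max_eq_left (by linarith)
          rw [h5]
          have h6 : -g n x ≤ (-g n x) ^ 2 / K := by
            rw [le_div_iff₀ hK]
            nlinarith
          linarith
      calc ∫ x, (max (g n x) (-K) + K) ∂μ
          ≤ ∫ x, (g n x + (max (-g n x) 0) ^ 2 / K + K) ∂μ :=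
            integral_mono (hint _ (hg n)) (((hg n).add (hsqi.div_const K)).add
              (integrable_const K)) hpt
        _ = ∫ x, g n x ∂μ + (∫ x, (max (-g n x) 0) ^ 2 ∂μ) / K + K * μ.real univ := by
            have e1 : ∫ x, (g n x + (max (-g n x) 0) ^ 2 / K + K) ∂μ =
                ∫ x, (g n x + (max (-g n x) 0) ^ 2 / K) ∂μ + ∫ _x, K ∂μ :=
              integral_add (f := fun x => g n x + (max (-g n x) 0) ^ 2 / K) (g := fun _ => K)
                ((hg n).add (hsqi.div_const K)) (integrable_const K)
            have e2 : ∫ x, (g n x + (max (-g n x) 0) ^ 2 / K) ∂μ =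
                ∫ x, g n x ∂μ + ∫ x, (max (-g n x) 0) ^ 2 / K ∂μ :=
              integral_add (hg n) (hsqi.div_const K)
            rw [e1, e2, integral_div, integral_const, smul_eq_mul, mul_comm (μ.real univ)]
        _ ≤ V + max B 0 / K + K * μ.real univ := by
            gcongr
    -- Fatou
    have hR : 0 ≤ V + max B 0 / K + K * μ.real univ := by
      obtain ⟨n, hn⟩ := hb.exists
      exact (integral_nonneg (hnn _)).trans hn
    have hF : ∫⁻ x, ENNReal.ofReal (max (g₀ x) (-K) + K) ∂μ ≤
        ENNReal.ofReal (V + max B 0 / K + K * μ.real univ) := by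
      have h1 : ∫⁻ x, ENNReal.ofReal (max (g₀ x) (-K) + K) ∂μ =
          ∫⁻ x, liminf (fun n => ENNReal.ofReal (max (g n x) (-K) + K)) atTop ∂μ := by
        apply lintegral_congr_ae
        filter_upwards [hlim] with x hx
        refine (Tendsto.liminf_eq ?_).symm
        refine (ENNReal.continuous_ofReal.tendsto _).comp ?_
        exact (hx.max tendsto_const_nhds).add tendsto_const_nhds
      rw [h1]
      refine (lintegral_liminf_le' fun n => ?_).trans ?_
      · exact ((hint _ (hg n)).aestronglyMeasurable.aemeasurable).ennreal_ofReal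
      · refine liminf_le_of_le (by isBoundedDefault) ?_
        intro b hb'
        obtain ⟨n, hn1, hn2⟩ := (hb'.and hb).exists
        refine hn1.trans ?_
        rw [← ofReal_integral_eq_lintegral_ofReal (hint _ (hg n)) (ae_of_all _ (hnn _))]
        exact ENNReal.ofReal_le_ofReal hn2
    have h2 : ∫ x, (max (g₀ x) (-K) + K) ∂μ ≤ V + max B 0 / K + K * μ.real univ := by
      rw [integral_eq_lintegral_of_nonneg_ae (ae_of_all _ (hnn _))
        (hint _ hg₀).aestronglyMeasurable]
      exact ENNReal.toReal_le_of_le_ofReal hR hF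
    have h3 : ∫ x, g₀ x ∂μ + K * μ.real univ ≤ ∫ x, (max (g₀ x) (-K) + K) ∂μ := by
      have h4 : ∫ x, g₀ x ∂μ + K * μ.real univ = ∫ x, (g₀ x + K) ∂μ := by
        rw [integral_add hg₀ (integrable_const K), integral_const, smul_eq_mul,
          mul_comm (μ.real univ)]
      rw [h4]
      exact integral_mono (hg₀.add (integrable_const K)) (hint _ hg₀) (fun x => by
        have := le_max_left (g₀ x) (-K)
        change g₀ x + K ≤ max (g₀ x) (-K) + K
        linarith)
    linarith
  have hlim2 : Tendsto (fun K : ℝ => V + max B 0 / K) atTop (𝓝 (V + 0)) :=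
    tendsto_const_nhds.add (tendsto_const_nhds.div_atTop tendsto_id)
  rw [add_zero] at hlim2
  refine ge_of_tendsto hlim2 ?_
  filter_upwards [eventually_gt_atTop 0] with K hK using key K hK

end Pool.Agent.H86.ZQ
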