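import Pool.Agent.H26.ZQ.Defs

/-!
# The other inequality in the formula of Jensen in the half plane
-/

set_option autoImplicit false

open MeasureTheory Set Filter Topology Metric

namespace Pool.Agent.H86.ZQ

open Pool.Agent.H26.ZQ Pool.Agent.H26.ML

theorem yac_cay {c : ℝ} (hc : 0 < c) {w : ℂ} (h : 1 + w ≠ 0) : yac c (cay c w) = w := by
  have h2 : (c : ℂ) ≠ 0 := by exact_mod_cast hc.ne'
  unfold cay yac
  have h3 : (c : ℂ) - c * ((1 - w) / (1 + w)) = 2 * c * w / (1 + w) := by field_simp; ring
  have h4 : (c : ℂ) + c * ((1 - w) / (1 + w)) = 2 * c / (1 + w) := by field_simp; ring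
  rw [h3, h4]
  field_simp

theorem pf_he (hCIR : T_CIR) (hFLO : T_FLO) (hJU : T_JU) : T_HE := by
  classical
  intro E σ c T k f hE hσ hσc hf hT
  have hπ := Real.pi_pos
  have hc : 0 < c := hσ.trans hσc
  have hE0 : 0 < E := by linarith
  have han : AnalyticOnNhd ℂ f {z | 0 ≤ z.re} := by
    refine hf.an.mono ?_
    intro z hz
    have hz' : 0 ≤ z.re := hz
    change -(1 / 4) ≤ z.re
    linarith
  have hfc : f c ≠ 0 := by
    intro h0
    have h1 := hf.far c (by simpa using hσc.le)
    rw [h0, norm_zero, mul_zero] at h1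
    linarith
  have hgrow : ∀ z : ℂ, 0 ≤ z.re → ‖f z‖ ≤ E * (1 + ‖z‖) ^ (k : ℝ) := by
    intro z hz
    refine (hf.grow z (by linarith)).trans ?_
    rw [Real.rpow_natCast]
    have h1 : 1 + |z.im| ≤ 1 + ‖z‖ := by
      have := Complex.abs_im_le_norm z
      linarith
    have h2 : (0 : ℝ) ≤ 1 + |z.im| := by positivity
    gcongr
  obtain ⟨hG1, -⟩ := jensen_circle hc hE (Nat.cast_nonneg k) han hgrow hfc ∅ (by simp)
  obtain ⟨B, hB⟩ := hCIR E σ c k f hE hσ hσc hf
  have hgood := ae_good hc han hfc
  have hV : ∀ n, ∫ θ in Ioc 0 (2 * Real.pi), bdry f c (rad n) θ ≤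
      2 * Real.pi * (T + Real.log ‖f c‖) := by
    intro n
    have hF : AnalyticOnNhd ℂ (fun ζ => f (cay c ζ)) (closedBall 0 (rad n)) := by
      intro ζ hζ
      rw [mem_closedBall, dist_eq_norm, sub_zero] at hζ
      exact an_comp hc han (hζ.trans_lt (rad_lt n))
    have h0 : f (cay c 0) ≠ 0 := by rw [cay_zero]; exact hfc
    have h1 := hJU (fun ζ => f (cay c ζ)) (rad n) T (rad_pos n) (rad_lt n) hF h0 (by
      intro W hW
      have hW1 : ∀ w ∈ W, ‖w‖ < 1 := by
        intro w hw
        have := hW w hw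
        rw [mem_closedBall, dist_eq_norm, sub_zero] at this
        exact this.trans_lt (rad_lt n)
      have h2 := hT (W.image (cay c)) (by
        intro z hz
        rw [Finset.mem_image] at hz
        obtain ⟨w, hw, rfl⟩ := hz
        exact cay_re_pos hc (hW1 w hw))
      rw [Finset.sum_image] at h2
      · refine le_trans (le_of_eq ?_) h2
        refine Finset.sum_congr rfl fun w hw => ?_
        have h3 := yac_cay hc (one_add_ne_of_lt (hW1 w hw))
        have h4 := order_comp_cay hc f (cay_re_pos hc (hW1 w hw))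
        rw [h3] at h4
        rw [h4]
        congr 1
        have h5 : ‖(c : ℂ) + cay c w‖ / ‖(c : ℂ) - cay c w‖ = 1 / ‖w‖ := by
          conv_rhs => rw [← h3]
          rw [norm_yac, one_div_div]
        rw [h5]
      · intro w hw w' hw' h
        rw [← yac_cay hc (one_add_ne_of_lt (hW1 w hw)),
          ← yac_cay hc (one_add_ne_of_lt (hW1 w' hw')), h])
    rw [Real.circleAverage_def, smul_eq_mul, intervalIntegral.integral_of_le (by positivity)] at h1
    have h3 := mul_le_mul_of_nonneg_left h1 (by positivity : (0 : ℝ) ≤ 2 * Real.pi)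
    rw [← mul_assoc, mul_inv_cancel₀ (by positivity), one_mul] at h3
    have h4 : f (cay c 0) = f c := by rw [cay_zero]
    simp only [h4] at h3
    exact h3
  have hfat := hFLO (volume.restrict (Ioc (0 : ℝ) (2 * Real.pi))) (fun n => bdry f c (rad n))
    (bdry f c 1) B (2 * Real.pi * (T + Real.log ‖f c‖)) (fun n => bdry_int hc han n) hG1 (by
      filter_upwards [hgood] with θ hθ
      exact tendsto_bdry hc han hθ.1 hθ.2) hB (Eventually.of_forall hV)
  -- change of variables
  have hper := bdry_periodic f c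
  have h5 : ∫ θ in Ioc 0 (2 * Real.pi), bdry f c 1 θ =
      ∫ θ in Ioo (-Real.pi) Real.pi, bdry f c 1 θ := by
    have h6 := hper.intervalIntegral_add_eq 0 (-Real.pi)
    rw [zero_add, intervalIntegral.integral_of_le (by positivity),
      show -Real.pi + 2 * Real.pi = Real.pi by ring,
      intervalIntegral.integral_of_le (by linarith)] at h6
    rw [h6, integral_Ioc_eq_integral_Ioo]
  have hder : ∀ u ∈ (univ : Set ℝ), HasDerivWithinAt (ang c) (-(2 * (c / (c ^ 2 + u ^ 2)))) univ u :=
    fun u _ => (ang_hasDerivAt hc u).hasDerivWithinAt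
  have hkey : ∀ u : ℝ, |-(2 * (c / (c ^ 2 + u ^ 2)))| • bdry f c 1 (ang c u) =
      2 * (poi c u * Real.log ‖f (u * Complex.I)‖) := by
    intro u
    rw [bdry_ang hc, abs_neg, abs_of_pos (by positivity), smul_eq_mul]
    unfold poi
    ring
  rw [h5, ← ang_image hc, integral_image_eq_integral_abs_deriv_smul MeasurableSet.univ hder
    (ang_inj hc).injOn] at hfat
  simp only [hkey, Measure.restrict_univ] at hfat
  rw [integral_const_mul] at hfat
  linarith

end Pool.Agent.H86.ZQ
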