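import Pool.Agent.H26.ZQ.Defs

/-!
# The square integral over an interval of length one
-/

set_option autoImplicit false

open MeasureTheory Set Filter Topology Metric

namespace Pool.Agent.H86.ZQ

open Pool.Agent.H26.ZQ Pool.Agent.H26.ML

theorem log_sq_le {x : ℝ} (h0 : 0 < x) (h1 : x ≤ 1) :
    (Real.log x) ^ 2 ≤ 16 * x ^ (-(1 / 2) : ℝ) := by
  have h2 := Real.abs_log_mul_self_rpow_lt x (1 / 4) h0 h1 (by norm_num)
  rw [abs_mul, abs_of_pos (Real.rpow_pos_of_pos h0 _)] at h2
  have hp : 0 < x ^ (1 / 4 : ℝ) := Real.rpow_pos_of_pos h0 _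
  have h3 : |Real.log x| * x ^ (1 / 4 : ℝ) < 4 := by
    have : (1 : ℝ) / (1 / 4) = 4 := by norm_num
    rwa [this] at h2
  have h4 : (|Real.log x| * x ^ (1 / 4 : ℝ)) ^ 2 ≤ 16 := by
    have h5 : 0 ≤ |Real.log x| * x ^ (1 / 4 : ℝ) := by positivity
    nlinarith
  rw [mul_pow, sq_abs] at h4
  have h6 : (x ^ (1 / 4 : ℝ)) ^ 2 = x ^ (1 / 2 : ℝ) := by
    rw [← Real.rpow_natCast, ← Real.rpow_mul h0.le]
    norm_num
  rw [h6] at h4
  rw [Real.rpow_neg h0.le]
  have hq : 0 < x ^ (1 / 2 : ℝ) := Real.rpow_pos_of_pos h0 _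
  rw [← div_eq_mul_inv, le_div_iff₀ hq]
  exact h4

theorem log_sq_int : IntervalIntegrable (fun x : ℝ => (Real.log x) ^ 2) volume (-1) 1 := by
  have h1 : IntervalIntegrable (fun x : ℝ => (Real.log x) ^ 2) volume 0 1 := by
    have h2 : IntervalIntegrable (fun x : ℝ => 16 * x ^ (-(1 / 2) : ℝ)) volume 0 1 :=
      (intervalIntegral.intervalIntegrable_rpow' (by norm_num)).const_mul 16
    refine h2.mono_fun ((Real.measurable_log.pow_const 2).aestronglyMeasurable) ?_
    rw [EventuallyLE, ae_restrict_iff' measurableSet_uIoc]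
    refine ae_of_all _ fun x hx => ?_
    rw [uIoc_of_le zero_le_one] at hx
    have h3 := log_sq_le hx.1 hx.2
    rw [Real.norm_of_nonneg (sq_nonneg _)]
    exact h3.trans (le_abs_self _)
  have h2 : IntervalIntegrable (fun x : ℝ => (Real.log x) ^ 2) volume (-1) 0 := by
    rw [IntervalIntegrable.iff_comp_neg]
    simp only [Real.log_neg_eq_log, neg_neg, neg_zero]
    exact h1.symm
  exact h2.trans h1

/-- the constant -/
noncomputable def c1 : ℝ := ∫ x in Icc (-1 : ℝ) 1, (Real.log x) ^ 2

theorem c1_nonneg : 0 ≤ c1 := integral_nonneg fun _ => sq_nonneg _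

theorem lint_le (a v : ℝ) (hv : v ∈ Icc a (a + 1)) (T : Set ℝ) (hT : T ⊆ Icc a (a + 1)) :
    ∫⁻ u in T, ENNReal.ofReal ((Real.log (u - v)) ^ 2) ≤ ENNReal.ofReal c1 := by
  have h1 : IntegrableOn (fun x : ℝ => (Real.log x) ^ 2) (Icc (-1) 1) := by
    have := log_sq_int
    rwa [intervalIntegrable_iff_integrableOn_Icc_of_le (by norm_num)] at this
  have h2 : ENNReal.ofReal c1 = ∫⁻ x in Icc (-1 : ℝ) 1, ENNReal.ofReal ((Real.log x) ^ 2) :=
    ofReal_integral_eq_lintegral_ofReal h1 (ae_of_all _ fun _ => sq_nonneg _)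
  rw [h2, ← lintegral_indicator measurableSet_Icc,
    ← lintegral_sub_right_eq_self (μ := volume)
      ((Icc (-1 : ℝ) 1).indicator fun x => ENNReal.ofReal ((Real.log x) ^ 2)) v]
  calc ∫⁻ u in T, ENNReal.ofReal ((Real.log (u - v)) ^ 2)
      ≤ ∫⁻ u in Icc a (a + 1), ENNReal.ofReal ((Real.log (u - v)) ^ 2) :=
        lintegral_mono_set hT
    _ = ∫⁻ u, (Icc a (a + 1)).indicator (fun u => ENNReal.ofReal ((Real.log (u - v)) ^ 2)) u := by
        rw [lintegral_indicator measurableSet_Icc]
    _ ≤ _ := by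
        apply lintegral_mono
        intro u
        by_cases hu : u ∈ Icc a (a + 1)
        · have hu' : u - v ∈ Icc (-1 : ℝ) 1 := by
            obtain ⟨hu1, hu2⟩ := hu
            obtain ⟨hv1, hv2⟩ := hv
            constructor <;> linarith
          rw [indicator_of_mem hu]
          change _ ≤ (Icc (-1 : ℝ) 1).indicator (fun x => ENNReal.ofReal ((Real.log x) ^ 2)) (u - v)
          rw [indicator_of_mem hu']
        · rw [indicator_of_notMem hu]
          exact bot_le

theorem pf_sq : T_SQ := by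
  refine ⟨8 + 2 * c1, by have := c1_nonneg; linarith, ?_⟩
  intro a K N ζ w F S hK hw hS hF hsep hlow
  have hc1 := c1_nonneg
  set T := S ∩ Icc a (a + 1) with hT
  have hTc : IsCompact T := isCompact_Icc.inter_left hS
  have hTm : MeasurableSet T := hTc.measurableSet
  rcases T.eq_empty_or_nonempty with he | hne
  · rw [he, Measure.restrict_empty, lintegral_zero_measure]
    exact bot_le
  have hv : ∀ j : Fin N, ∃ v ∈ T, ∀ u ∈ T, |(w v).im - (ζ j).im| ≤ |(w u).im - (ζ j).im| := by
    intro j
    have hc : ContinuousOn (fun u : ℝ => |(w u).im - (ζ j).im|) T := by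
      apply Continuous.continuousOn
      exact ((Complex.continuous_im.comp hw).sub continuous_const).abs
    obtain ⟨v, hv, hm⟩ := hTc.exists_isMinOn hne hc
    exact ⟨v, hv, fun u hu => hm hu⟩
  choose v hvT hvm using hv
  -- pointwise bound
  have hpt : ∀ u ∈ T, (∀ j, u ≠ v j) → (max (-F u) 0) ^ 2 ≤
      2 * (K + 2 * N) ^ 2 + ∑ j, 2 * N * (Real.log (u - v j)) ^ 2 := by
    intro u hu hne
    have hnn : 0 ≤ 2 * (K + 2 * N) ^ 2 + ∑ j, 2 * (N : ℝ) * (Real.log (u - v j)) ^ 2 := by
      apply add_nonneg (by positivity)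
      exact Finset.sum_nonneg fun j _ => by positivity
    rcases le_or_gt 0 (F u) with hF0 | hF0
    · rw [max_eq_right (by linarith)]
      simpa using hnn
    · rw [max_eq_left (by linarith)]
      have h1 := hlow u hu hF0
      have hlog4 : Real.log 4 ≤ 2 := by
        have := Real.log_two_lt_d9
        have h4 : Real.log 4 = 2 * Real.log 2 := by
          rw [show (4 : ℝ) = 2 ^ 2 by norm_num, Real.log_pow]; norm_num
        rw [h4]; linarith
      have h2 : ∀ j, Real.log |u - v j| - 2 ≤ Real.log ‖w u - ζ j‖ := by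
        intro j
        have hpos : 0 < |u - v j| := abs_pos.2 (sub_ne_zero.2 (hne j))
        have h3 := hsep u hu (v j) (hvT j)
        have h4 : |(w u).im - (w (v j)).im| ≤ |(w u).im - (ζ j).im| + |(w (v j)).im - (ζ j).im| := by
          have := abs_sub_le (w u).im (ζ j).im (w (v j)).im
          rwa [abs_sub_comm (ζ j).im] at this
        have h5 := hvm j u hu
        have h6 : |u - v j| / 4 ≤ |(w u - ζ j).im| := by
          rw [Complex.sub_im]; linarith
        have h7 : |u - v j| / 4 ≤ ‖w u - ζ j‖ := h6.trans (Complex.abs_im_le_norm _)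
        have h8 : Real.log (|u - v j| / 4) ≤ Real.log ‖w u - ζ j‖ :=
          Real.log_le_log (by positivity) h7
        rw [Real.log_div hpos.ne' (by norm_num)] at h8
        linarith
      have h3 : -F u ≤ (K + 2 * N) + ∑ j, |Real.log (u - v j)| := by
        have h4 : ∑ j, (Real.log |u - v j| - 2) ≤ ∑ j, Real.log ‖w u - ζ j‖ :=
          Finset.sum_le_sum fun j _ => h2 j
        rw [Finset.sum_sub_distrib, Finset.sum_const, Finset.card_univ, Fintype.card_fin,
          nsmul_eq_mul] at h4
        have h5 : -∑ j, Real.log |u - v j| ≤ ∑ j, |Real.log (u - v j)| := by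
          rw [← Finset.sum_neg_distrib]
          refine Finset.sum_le_sum fun j _ => ?_
          rw [Real.log_abs]
          exact neg_le_abs _
        linarith
      have h4 : (-F u) ^ 2 ≤ ((K + 2 * N) + ∑ j, |Real.log (u - v j)|) ^ 2 :=
        pow_le_pow_left₀ (by linarith) h3 2
      have h5 : (∑ j, |Real.log (u - v j)|) ^ 2 ≤ N * ∑ j, (Real.log (u - v j)) ^ 2 := by
        have := sq_sum_le_card_mul_sum_sq (s := (Finset.univ : Finset (Fin N)))
          (f := fun j => |Real.log (u - v j)|)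
        simpa only [Finset.card_univ, Fintype.card_fin, sq_abs] using this
      rw [← Finset.mul_sum]
      nlinarith [sq_nonneg ((K + 2 * N) - ∑ j, |Real.log (u - v j)|)]
  -- integrate
  have hae : ∀ᵐ u ∂(volume.restrict T), ENNReal.ofReal ((max (-F u) 0) ^ 2) ≤
      ENNReal.ofReal (2 * (K + 2 * N) ^ 2) +
        ∑ j, ENNReal.ofReal (2 * N) * ENNReal.ofReal ((Real.log (u - v j)) ^ 2) := by
    have h1 : ∀ᵐ u : ℝ, ∀ j, u ≠ v j := by
      rw [ae_all_iff]
      intro j
      exact Measure.ae_ne volume (v j)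
    rw [ae_restrict_iff' hTm]
    filter_upwards [h1] with u hu huT
    have h2 := hpt u huT hu
    refine (ENNReal.ofReal_le_ofReal h2).trans ?_
    rw [ENNReal.ofReal_add (by positivity) (Finset.sum_nonneg fun j _ => by positivity)]
    gcongr
    rw [ENNReal.ofReal_sum_of_nonneg (fun j _ => by positivity)]
    refine le_of_eq (Finset.sum_congr rfl fun j _ => ?_)
    rw [ENNReal.ofReal_mul (by positivity)]
  have hvol : volume T ≤ 1 := by
    refine (measure_mono inter_subset_right).trans ?_
    rw [Real.volume_Icc]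
    simp
  calc ∫⁻ u in T, ENNReal.ofReal ((max (-F u) 0) ^ 2)
      ≤ ∫⁻ u in T, (ENNReal.ofReal (2 * (K + 2 * N) ^ 2) +
        ∑ j, ENNReal.ofReal (2 * N) * ENNReal.ofReal ((Real.log (u - v j)) ^ 2)) :=
        lintegral_mono_ae hae
    _ = ENNReal.ofReal (2 * (K + 2 * N) ^ 2) * volume T +
        ∑ j, ENNReal.ofReal (2 * N) * ∫⁻ u in T, ENNReal.ofReal ((Real.log (u - v j)) ^ 2) := by
        rw [lintegral_add_left measurable_const, lintegral_const, Measure.restrict_apply_univ,
          lintegral_finsetSum]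
        · congr 1
          refine Finset.sum_congr rfl fun j _ => ?_
          rw [lintegral_const_mul']
          exact ENNReal.ofReal_ne_top
        · intro j _
          apply Measurable.const_mul
          exact ((Real.measurable_log.comp (measurable_id.sub_const _)).pow_const 2).ennreal_ofReal
    _ ≤ ENNReal.ofReal (2 * (K + 2 * N) ^ 2) * 1 +
        ∑ _j : Fin N, ENNReal.ofReal (2 * N) * ENNReal.ofReal c1 := by
        gcongr with j _
        exact lint_le a (v j) (hvT j).2 T inter_subset_right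
    _ = ENNReal.ofReal (2 * (K + 2 * N) ^ 2 + 2 * N ^ 2 * c1) := by
        rw [mul_one, Finset.sum_const, Finset.card_univ, Fintype.card_fin, nsmul_eq_mul,
          ← ENNReal.ofReal_mul (by positivity), ← ENNReal.ofReal_natCast,
          ← ENNReal.ofReal_mul (by positivity), ← ENNReal.ofReal_add (by positivity)
            (by positivity)]
        congr 1
        ring
    _ ≤ ENNReal.ofReal ((8 + 2 * c1) * (K + N) ^ 2) := by
        apply ENNReal.ofReal_le_ofReal
        have hN : (0 : ℝ) ≤ N := Nat.cast_nonneg N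
        have h1 : (K + 2 * N) ^ 2 ≤ 4 * (K + N) ^ 2 := by nlinarith
        have h2 : (N : ℝ) ^ 2 * c1 ≤ (K + N) ^ 2 * c1 := by
          apply mul_le_mul_of_nonneg_right _ hc1
          nlinarith
        nlinarith

end Pool.Agent.H86.ZQ
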